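import Pool.Agent.helper17.EXT.Spec

set_option autoImplicit false

open Finset

namespace Pool.Agent.EXT

open Pool.Agent.EXC

theorem CXT_inj {K : Type} [Field K] {s t : K}
    (h : xe C6 (E C6 th) s (E C6 (-th)) = (xe C6 (E C6 th) t (E C6 (-th)) : Lm C6 K)) : s = t := by
  have h2 : ip C6 th th = 2 := f_DE6.2.th2
  rw [(f_ACT 6 C6 K th s h2).2.2.1, (f_ACT 6 C6 K th t h2).2.2.1] at h
  have h3 := congrArg (fun v : Lm C6 K => v.1 0) h
  have h4 : (E C6 th : Lm C6 K).1 0 = 0 := by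
    unfold E
    rw [dif_pos h2]
    rfl
  have h5 : (ht C6 th : Lm C6 K).1 0 = 1 := by
    change ((th 0 : ℤ) : K) = 1
    have h6 : th 0 = 1 := rfl
    rw [h6, Int.cast_one]
  simp only [Prod.fst_add, Prod.fst_sub, Prod.smul_fst, Pi.add_apply, Pi.sub_apply, Pi.smul_apply, h4, h5,
    smul_eq_mul, mul_one, mul_zero, add_zero] at h3
  exact sub_right_inj.1 h3

theorem CXT (hRTF : RTF_stmt) (hSIG : SIG_stmt) (hSGR : SGR_stmt) (hCUT : CUT_stmt) (hGMT : GMT_stmt) :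
    CXT_stmt := by
  intro K _ τ hτ hor g hg hcomm
  obtain ⟨hip, -, -, -, -, hPos, -, -, hsn, -, hsn1, -, -, hLth, hth1⟩ := hRTF
  obtain ⟨-, -, -, -, -, hsE, -, hsx⟩ := hSIG K τ hτ
  obtain ⟨-, -, -, hS4, -, hS6⟩ := hSGR K τ hτ
  obtain ⟨hA, ⟨u, hu, hgu⟩, hC⟩ := hCUT K τ hτ hor g hg hcomm
  have hE := f_DE6.2
  have h2 : ip C6 th th = 2 := hE.th2
  have hβ := (f_NBR 6 C6 1 th _ hE).1
  obtain ⟨hAu, hExE, hExP, -⟩ := f_EXF 6 C6 K hβ
  obtain ⟨q, hq, huq⟩ := f_QUN 6 C6 K 1 th _ hE u hu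
  have hgq : g (E C6 (-th)) = (q (E C6 (-th)) : Lm C6 K) := hgu.trans huq
  obtain ⟨t, ht⟩ := f_QNF 6 C6 K 1 th _ hE q hq (by
    intro γ hγ hγ1
    rw [← hgq]
    refine hC (th - γ) ?_ ?_
    · rw [sub_root_iff h2 hγ, ip_comm]
      exact hγ1
    · rw [ip_sub_left, h2, hγ1]
      norm_num)
  -- `t` is fixed
  have hpth : pv th = th := hLth.2
  have hfth : si τ (E C6 th : Lm C6 K) = E C6 th := by
    rw [hsE th h2, hpth, hsn1 th hpth, Int.cast_one, one_smul]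
  have hpnth : pv (-th) = -th := by
    funext i
    have h3 := congrFun hpth i
    change -(th (pn i)) = -(th i)
    rw [← h3]
    rfl
  have hfnth : si τ (E C6 (-th) : Lm C6 K) = E C6 (-th) := by
    rw [hsE (-th) (neg_root C6 h2), hpnth, hsn1 (-th) hpnth, Int.cast_one, one_smul]
  have hbt : g (E C6 (-th)) = (xe C6 (E C6 th) t (E C6 (-th)) : Lm C6 K) := by
    rw [hgq, ht]
  have hτt : τ t = t := by
    have h3 := (hS6 g hg).2.2 (E C6 (-th))
    rw [hfnth, hbt, hsx, hfth, hfnth] at h3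
    exact CXT_inj h3
  have hqG : q ∈ GS τ := Subgroup.subset_closure (Or.inl ⟨th, t, hLth, hτt, ht⟩)
  refine ⟨t, hτt, fun v hv => ?_⟩
  have hqi : ∀ w, q⁻¹ (q w) = w := fun w => q.symm_apply_apply w
  have hqq : ∀ w, q (q⁻¹ w) = w := fun w => q.apply_symm_apply w
  have key := hGMT K τ hτ (q⁻¹ * g) ((GS τ).mul_mem ((GS τ).inv_mem hqG) hg)
    (by
      intro β hβL hβP
      change q⁻¹ (g (E C6 β)) = E C6 β
      rw [hA β hβL hβP]
      have h3 : q (E C6 β) = (E C6 β : Lm C6 K) := by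
        rw [ht]
        refine (f_ACT 6 C6 K th t h2).1 β hβL.1 ?_
        rw [hth1]
        exact hβP 1
      rw [← h3, hqi, h3])
    (by
      change q⁻¹ (g (E C6 (-th))) = E C6 (-th)
      rw [hgq, hqi])
    (by
      intro γ hγ hγP s h hh w hw
      have hhG : h ∈ GS τ := (hS4 γ s h hγ hh).2
      have hγ2 : ip C6 (pv γ) (pv γ) = 2 := by rw [hip]; exact hγ.1
      have hhU : h ∈ UG C6 K := by
        obtain ⟨g₁, -, hg₁⟩ := (hExP (E C6 γ) (hExE γ hγ.1)).2.2.2.2.1 s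
        obtain ⟨g₂, -, hg₂⟩ := (hExP (E C6 (pv γ)) (hExE (pv γ) hγ2)).2.2.2.2.1 ((sn γ : K) * τ s)
        have h3 : h = g₁ * g₂ := by
          refine LinearEquiv.ext fun x => ?_
          change h x = g₁ (g₂ x)
          rw [hh x, hg₁, hg₂]
        rw [h3]
        exact (UG C6 K).mul_mem (Subgroup.subset_closure ⟨γ, hγ.1, hγP, s, hg₁⟩)
          (Subgroup.subset_closure ⟨pv γ, hγ2, hPos γ hγP, _, hg₂⟩)
      have hqh : ∀ x, q (h x) = h (q x) := by
        intro x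
        rw [ht, hh, ht, hh]
        rw [(f_COL 6 C6 K th γ h2 hγ.1).2 (by rw [hth1]; exact hγP 1),
          (f_COL 6 C6 K th (pv γ) h2 hγ2).2 (by rw [hth1]; exact hPos γ hγP 1)]
      change q⁻¹ (g (h w)) = h (q⁻¹ (g w))
      rw [hcomm h hhG hhU w hw]
      have h4 := hqh (q⁻¹ (g w))
      rw [hqq] at h4
      rw [← h4, hqi]) v hv
  have key' : q⁻¹ (g v) = v := key
  have h5 : q (q⁻¹ (g v)) = q v := by rw [key']
  rw [hqq] at h5
  rw [h5, ht]

end Pool.Agent.EXT
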