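import Pool.Agent.helper32.EXT.Spec7

/-!
# Row ft7:TE7 of MP_561ff4_al: the root elements `x_(c7 i)(1)` as words
-/

set_option autoImplicit false

open Finset

namespace Pool.Agent.EXT

open Pool.Agent.EXC

theorem TE7_one (K : Type) [Field K] (k : Fin 24) :
    gw7 0 (1 : K) [(k, 1)] = XG C6 (lt7 k) (1 : K) := by
  unfold gw7
  rw [List.map_singleton, List.prod_singleton, one_zpow, mul_one, Int.cast_one]

theorem TE7 (hESF : ESF_stmt) (hWA7 : WA7_stmt) : TE7_stmt := by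
  intro K _ τ hτ i
  obtain ⟨hE, hF⟩ := hESF K τ hτ
  have hLR : LR (lt7 (bs7 i)) := lt7_LR (bs7 i)
  have h1 : τ (1 : K) = 1 := map_one τ
  have h2 : (1 : K) ≠ 0 := one_ne_zero
  have hg : gw7 0 (1 : K) (wd7 i) ∈ GS τ := (hWA7 K τ hτ 0 1 h1 h2 (wd7 i) []).1
  have hinv : gw7 0 (1 : K) (wi7 (wd7 i)) = (gw7 0 (1 : K) (wd7 i))⁻¹ :=
    (hWA7 K τ hτ 0 1 h1 h2 (wd7 i) []).2.1
  have hmul : ∀ l l' : List (Fin 24 × ℤ), gw7 0 (1 : K) (l ++ l') = gw7 0 (1 : K) l * gw7 0 (1 : K) l' :=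
    fun l l' => (hWA7 K τ hτ 0 1 h1 h2 l l').2.2.1
  obtain ⟨-, -, -, hG, -, -, -, hcj⟩ := hF _ (hE _ hLR)
  refine ⟨hG _ hg, ?_⟩
  have hx := (g_XG K (lt7 (bs7 i)) hLR.1 (1 : K)).1
  have htw : gw7 0 (1 : K) (tw7 i) =
      gw7 0 (1 : K) (wd7 i) * XG C6 (lt7 (bs7 i)) (1 : K) * (gw7 0 (1 : K) (wd7 i))⁻¹ := by
    unfold tw7
    rw [hmul, hmul, hinv, TE7_one]
  rw [htw]
  exact hcj _ hg _ _ hx

end Pool.Agent.EXT
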